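import Pool.Agent.R614.GE.Tame

/-!
# Non-tame valuations with finitely many conjugates
-/

set_option autoImplicit false
set_option linter.unusedSectionVars false

namespace Pool.Agent.R614.GE

open NNReal NumberField IsDedekindDomain WithZero

variable {F κ : Type} [Field F] [NumberField F] [Field κ] [Algebra F κ] [IsGalois F κ]
  (v : Valuation κ ℝ≥0)

theorem efg (L : FiniteGaloisIntermediateField F κ) :
    ((center v F).primesOver (𝓞 L)).ncard * (edeg v F L * fdeg v F L) = Module.finrank F L := by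
  have h1 := Ideal.ncard_primesOver_mul_ramificationIdxIn_mul_inertiaDegIn (center v F) (𝓞 L)
    (L ≃ₐ[F] L)
  rw [Ideal.ramificationIdxIn_eq_ramificationIdx (center v F) (center v L) (L ≃ₐ[F] L),
    Ideal.inertiaDegIn_eq_inertiaDeg (center v F) (center v L) (L ≃ₐ[F] L),
    IsGalois.card_aut_eq_finrank] at h1
  exact h1

/-- the valuation `x ↦ v (σ x)` -/
noncomputable def conj (σ : κ ≃ₐ[F] κ) : Valuation κ ℝ≥0 := v.comap (σ : κ →+* κ)

@[simp] theorem conj_apply (σ : κ ≃ₐ[F] κ) (x : κ) : conj v σ x = v (σ x) := rfl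

theorem center_congr {w w' : Valuation κ ℝ≥0} (h : w.valuationSubring = w'.valuationSubring)
    (M : Type) [Field M] [NumberField M] [Algebra M κ] : center w M = center w' M := by
  rw [← Valuation.isEquiv_iff_valuationSubring, Valuation.isEquiv_iff_val_lt_one] at h
  ext b
  rw [mem_center, mem_center]
  exact h

theorem exists_conj (L : FiniteGaloisIntermediateField F κ)
    (Q : Ideal (𝓞 L)) (hQ : Q ∈ (center v F).primesOver (𝓞 L)) :
    ∃ σ : κ ≃ₐ[F] κ, Q = center (conj v σ) L := by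
  have := hQ.1
  have := hQ.2
  obtain ⟨τ, hτ⟩ := Ideal.exists_smul_eq_of_isGaloisGroup (center v F) (center v L) Q
    (L ≃ₐ[F] L)
  refine ⟨(τ⁻¹).liftNormal κ, ?_⟩
  rw [← hτ]
  ext b
  rw [Ideal.mem_pointwise_smul_iff_inv_smul_mem, mem_center, mem_center, conj_apply]
  have h1 : io (κ := κ) L (τ⁻¹ • b) = (τ⁻¹).liftNormal κ (io L b) := by
    show algebraMap L κ (algebraMap (𝓞 L) L (τ⁻¹ • b)) =
      (τ⁻¹).liftNormal κ (algebraMap L κ (algebraMap (𝓞 L) L b))
    rw [AlgEquiv.liftNormal_commutes]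
    rfl
  rw [h1]

theorem ncard_le (L : FiniteGaloisIntermediateField F κ)
    (hfin : (Set.range fun σ : κ ≃ₐ[F] κ => (conj v σ).valuationSubring).Finite) :
    ((center v F).primesOver (𝓞 L)).ncard ≤
      (Set.range fun σ : κ ≃ₐ[F] κ => (conj v σ).valuationSubring).ncard := by
  classical
  have h1 : ∀ Q : Ideal (𝓞 L), ∃ σ : κ ≃ₐ[F] κ, Q ∈ (center v F).primesOver (𝓞 L) →
      Q = center (conj v σ) L := by
    intro Q
    by_cases hQ : Q ∈ (center v F).primesOver (𝓞 L)
    · obtain ⟨σ, hσ⟩ := exists_conj v L Q hQ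
      exact ⟨σ, fun _ => hσ⟩
    · exact ⟨1, fun h => absurd h hQ⟩
  choose σ hσ using h1
  refine Set.ncard_le_ncard_of_injOn (fun Q => (conj v (σ Q)).valuationSubring) ?_ ?_ hfin
  · intro Q _
    exact ⟨σ Q, rfl⟩
  · intro Q hQ Q' hQ' h
    rw [hσ Q hQ, hσ Q' hQ']
    exact center_congr h L

theorem bounded_finrank (hv : ∃ a, 1 < v a) {ℓ : ℕ} (hℓ : ℓ.Prime) (hdiv : ¬ Div v ℓ) (K : Type)
    [Field K] [Algebra (RF v) K] (hK : Module.finrank (RF v) K = ℓ)
    (hfin : (Set.range fun σ : κ ≃ₐ[F] κ => (conj v σ).valuationSubring).Finite) :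
    ∃ M, ∀ L : FiniteGaloisIntermediateField F κ, ¬ ℓ ^ M ∣ Module.finrank F L := by
  obtain ⟨M₁, h1⟩ := bounded_of_ext (F := F) v hv hℓ K hK
  obtain ⟨M₂, h2⟩ := bounded_of_not_div (F := F) v hv hℓ hdiv
  refine ⟨M₁ + M₂ + (Set.range fun σ : κ ≃ₐ[F] κ => (conj v σ).valuationSubring).ncard,
    fun L h => ?_⟩
  have h3 := ncard_le v L hfin
  set N := (Set.range fun σ : κ ≃ₐ[F] κ => (conj v σ).valuationSubring).ncard
  have h4 := efg v L
  set g := ((center v F).primesOver (𝓞 L)).ncard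
  have hn0 : Module.finrank F L ≠ 0 := Module.finrank_pos.ne'
  have hg0 : g ≠ 0 := by
    intro h0
    rw [h0, zero_mul] at h4
    exact hn0 h4.symm
  have he0 := (edeg_pos v F L).ne'
  have hf0 := (fdeg_pos v F L).ne'
  rw [hℓ.pow_dvd_iff_le_factorization hn0, ← h4,
    Nat.factorization_mul hg0 (mul_ne_zero he0 hf0), Nat.factorization_mul he0 hf0,
    Finsupp.add_apply, Finsupp.add_apply] at h
  have h5 := h1 L
  have h6 := h2 L
  rw [hℓ.pow_dvd_iff_le_factorization hf0] at h5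
  rw [hℓ.pow_dvd_iff_le_factorization he0] at h6
  have h7 : g.factorization ℓ < N := by
    have h8 : ℓ ^ g.factorization ℓ ≤ g := Nat.ordProj_le ℓ hg0
    have h9 : g.factorization ℓ < ℓ ^ g.factorization ℓ := Nat.lt_pow_self hℓ.one_lt
    omega
  omega

/-- If the degrees of the finite Galois subextensions have bounded `ℓ`-parts, no nontrivial
valuation is tame at `ℓ`. -/
theorem not_tame_of_bounded (hv : ∃ a, 1 < v a) {ℓ : ℕ} (hℓ : ℓ.Prime) {M : ℕ}
    (hM : ∀ L : FiniteGaloisIntermediateField F κ, ¬ ℓ ^ M ∣ Module.finrank F L) :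
    ¬ Div v ℓ ∧ ∃ (K : Type) (_ : Field K) (_ : Algebra (RF v) K),
      Algebra.IsSeparable (RF v) K ∧ Module.finrank (RF v) K = ℓ := by
  constructor
  · refine not_div_of_bounded (F := F) v hv hℓ (M := M) fun L h => hM L ?_
    rw [← efg v L]
    exact h.trans (Dvd.intro _ (by ring : edeg v F L *
      (((center v F).primesOver (𝓞 L)).ncard * fdeg v F L) = _))
  · refine exists_ext_of_bounded (F := F) v hv hℓ (M := M) fun L h => hM L ?_
    rw [← efg v L]
    exact h.trans (Dvd.intro _ (by ring : fdeg v F L *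
      (((center v F).primesOver (𝓞 L)).ncard * edeg v F L) = _))

end Pool.Agent.R614.GE
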