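import Mathlib

/-!
# Separable extensions of prime degree of directed unions of finite fields
-/

set_option autoImplicit false

namespace Pool.Agent.R614.GE

open Polynomial

theorem pow_eq_iff {F Ω : Type} [Field F] [Finite F] [Field Ω] [Algebra F Ω] {β : Ω}
    (hβ : IsIntegral F β) (n : ℕ) :
    β ^ Nat.card F ^ n = β ↔ (minpoly F β).natDegree ∣ n := by
  rw [(minpoly.irreducible hβ).natDegree_dvd_iff_dvd_X_pow_card_pow_sub_X, minpoly.dvd_iff]
  simp [sub_eq_zero]

/-- the degree over a subfield which contains the coefficients of the minimal polynomial -/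
theorem natDegree_eq {k Ω : Type} [Field k] [Field Ω] [Algebra k Ω] (F : Subfield k) {β : Ω}
    (hβ : IsIntegral k β) (hco : ∀ n, (minpoly k β).coeff n ∈ F) :
    IsIntegral F β ∧ (minpoly F β).natDegree = (minpoly k β).natDegree := by
  have h1 : minpoly k β ∈ Polynomial.lifts (algebraMap F k) := by
    rw [Polynomial.lifts_iff_coeff_lifts]
    intro n
    exact ⟨⟨_, hco n⟩, rfl⟩
  obtain ⟨g, hg1, hg2, hg3⟩ := lifts_and_natDegree_eq_and_monic h1 (minpoly.monic hβ)
  have h2 : aeval β g = 0 := by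
    rw [← aeval_map_algebraMap (A := k), hg1, minpoly.aeval]
  have h3 : IsIntegral F β := ⟨g, hg3, by rw [← aeval_def]; exact h2⟩
  refine ⟨h3, le_antisymm ?_ ?_⟩
  · rw [← hg2]
    exact natDegree_le_of_dvd (minpoly.dvd F β h2) hg3.ne_zero
  · rw [← natDegree_map (algebraMap F k) (p := minpoly F β)]
    exact natDegree_le_of_dvd (minpoly.dvd_map_of_isScalarTower F k β)
      ((minpoly.monic h3).map _).ne_zero

/-- A field which is a directed union of finite subfields with `q ^ f i` elements. -/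
structure FinUnion (k : Type) [Field k] where
  ι : Type
  nonempty : Nonempty ι
  Fd : ι → Subfield k
  q : ℕ
  one_lt : 1 < q
  f : ι → ℕ
  f_pos : ∀ i, 0 < f i
  card : ∀ i, Nat.card (Fd i) = q ^ f i
  dir : ∀ i j, ∃ m, Fd i ≤ Fd m ∧ Fd j ≤ Fd m
  cover : ∀ x : k, ∃ i, x ∈ Fd i

namespace FinUnion

variable {k : Type} [Field k] (U : FinUnion k)

theorem finite (i : U.ι) : Finite (U.Fd i) := by
  apply Nat.finite_of_card_ne_zero
  rw [U.card]
  exact pow_ne_zero _ (by have := U.one_lt; omega)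

/-- the degree of the extension of two of the finite fields -/
theorem exists_mul {i j : U.ι} (h : U.Fd i ≤ U.Fd j) : ∃ n, U.f j = U.f i * n := by
  have := U.finite i
  have := U.finite j
  let a : Algebra (U.Fd i) (U.Fd j) := (Subfield.inclusion h).toAlgebra
  have h1 := Module.natCard_eq_pow_finrank (K := U.Fd i) (V := U.Fd j)
  rw [U.card, U.card, ← pow_mul] at h1
  exact ⟨_, Nat.pow_right_injective U.one_lt h1⟩

theorem exists_all (s : Finset k) (i₀ : U.ι) : ∃ i, U.Fd i₀ ≤ U.Fd i ∧ ∀ x ∈ s, x ∈ U.Fd i := by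
  classical
  induction s using Finset.induction_on with
  | empty => exact ⟨i₀, le_refl _, by simp⟩
  | insert a s ha ih =>
    obtain ⟨i, hi1, hi2⟩ := ih
    obtain ⟨j, hj⟩ := U.cover a
    obtain ⟨m, hm1, hm2⟩ := U.dir i j
    refine ⟨m, hi1.trans hm1, fun x hx => ?_⟩
    rcases Finset.mem_insert.1 hx with rfl | hx
    · exact hm2 hj
    · exact hm1 (hi2 x hx)

theorem exists_coeff {Ω : Type} [Field Ω] [Algebra k Ω] (β : Ω) (i₀ : U.ι) :
    ∃ i, U.Fd i₀ ≤ U.Fd i ∧ ∀ n, (minpoly k β).coeff n ∈ U.Fd i := by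
  classical
  obtain ⟨i, hi1, hi2⟩ := U.exists_all ((minpoly k β).coeffs) i₀
  refine ⟨i, hi1, fun n => ?_⟩
  by_cases h : (minpoly k β).coeff n = 0
  · rw [h]
    exact zero_mem _
  · exact hi2 _ (coeff_mem_coeffs h)

/-- If the degrees `f i` have unbounded `ℓ`-parts, the field has no extension of degree `ℓ`. -/
theorem no_ext {ℓ : ℕ} (hℓ : ℓ.Prime) (hun : ∀ M, ∃ i, ℓ ^ M ∣ U.f i) (K : Type) [Field K]
    [Algebra k K] (hK : Module.finrank k K = ℓ) : False := by
  have hfd : FiniteDimensional k K := Module.finite_of_finrank_pos (by rw [hK]; exact hℓ.pos)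
  obtain ⟨α, hα⟩ : ∃ α : K, α ∉ (algebraMap k K).range := by
    by_contra hcon
    push Not at hcon
    have h1 : (⊥ : IntermediateField k K) = ⊤ := by
      rw [eq_top_iff]
      intro x _
      exact hcon x
    have h2 := IntermediateField.finrank_bot (F := k) (E := K)
    rw [h1, IntermediateField.finrank_top', hK] at h2
    exact hℓ.one_lt.ne' h2
  have hint : IsIntegral k α := IsIntegral.of_finite k α
  have hdeg : (minpoly k α).natDegree = ℓ := by
    have h1 := minpoly.degree_dvd (K := k) (L := K) hint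
    rw [hK] at h1
    rcases (Nat.dvd_prime hℓ).1 h1 with h | h
    · exfalso
      apply hα
      exact minpoly.natDegree_eq_one_iff.1 h
    · exact h
  obtain ⟨i₀⟩ := U.nonempty
  obtain ⟨i, -, hi⟩ := U.exists_coeff α i₀
  have := U.finite i
  obtain ⟨hi1, hi2⟩ := natDegree_eq (U.Fd i) hint hi
  -- a larger field
  obtain ⟨j, hj⟩ := hun ((U.f i).factorization ℓ + 1)
  obtain ⟨m, hm1, hm2⟩ := U.dir i j
  have := U.finite m
  obtain ⟨n, hn⟩ := U.exists_mul hm1
  obtain ⟨n', hn'⟩ := U.exists_mul hm2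
  have h3 : ℓ ∣ n := by
    have h4 : ℓ ^ ((U.f i).factorization ℓ + 1) ∣ U.f i * n := by
      rw [← hn, hn']
      exact Dvd.dvd.mul_right hj n'
    by_contra h5
    have h6 : Nat.Coprime (ℓ ^ ((U.f i).factorization ℓ + 1)) n :=
      Nat.Coprime.pow_left _ ((Nat.Prime.coprime_iff_not_dvd hℓ).2 h5)
    have h7 := h6.dvd_of_dvd_mul_right h4
    rw [hℓ.pow_dvd_iff_le_factorization (U.f_pos i).ne'] at h7
    omega
  have h8 : α ^ Nat.card (U.Fd i) ^ n = α := by
    rw [pow_eq_iff hi1, hi2, hdeg]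
    exact h3
  rw [U.card, ← pow_mul, ← hn, ← U.card, ← pow_one (Nat.card (U.Fd m))] at h8
  have h9 : IsIntegral (U.Fd m) α := by
    let a : Algebra (U.Fd i) (U.Fd m) := (Subfield.inclusion hm1).toAlgebra
    have : IsScalarTower (U.Fd i) (U.Fd m) K := IsScalarTower.of_algebraMap_eq (fun x => rfl)
    exact hi1.tower_top
  rw [pow_eq_iff h9, Nat.dvd_one, minpoly.natDegree_eq_one_iff] at h8
  obtain ⟨y, hy⟩ := h8
  exact hα ⟨y, hy⟩

/-- If the degrees `f i` have bounded `ℓ`-parts, the field has a separable extension of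
degree `ℓ`. -/
theorem exists_ext {ℓ : ℕ} (hℓ : ℓ.Prime) {M : ℕ} (hM : ∀ i, ¬ ℓ ^ M ∣ U.f i) :
    ∃ (K : Type) (_ : Field K) (_ : Algebra k K), Algebra.IsSeparable k K ∧
      Module.finrank k K = ℓ := by
  classical
  -- the largest `ℓ`-part
  obtain ⟨i, hi⟩ : ∃ i, ∀ j, (U.f j).factorization ℓ ≤ (U.f i).factorization ℓ := by
    have hb : ∀ j, (U.f j).factorization ℓ ≤ M := by
      intro j
      by_contra h
      rw [not_le] at h
      exact hM j ((hℓ.pow_dvd_iff_le_factorization (U.f_pos j).ne').2 h.le)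
    obtain ⟨i₀⟩ := U.nonempty
    let S : Set ℕ := Set.range fun j => (U.f j).factorization ℓ
    have hS : BddAbove S := ⟨M, by rintro _ ⟨j, rfl⟩; exact hb j⟩
    have hS2 : S.Nonempty := ⟨_, i₀, rfl⟩
    obtain ⟨i, hi⟩ := Nat.sSup_mem hS2 hS
    refine ⟨i, fun j => ?_⟩
    show _ ≤ (fun j => (U.f j).factorization ℓ) i
    rw [hi]
    exact le_csSup hS ⟨j, rfl⟩
  have := U.finite i
  let Ω := AlgebraicClosure k
  -- an element of degree `ℓ` over the `i`-th field
  obtain ⟨β, hβ⟩ : ∃ β : Ω, (minpoly (U.Fd i) β).natDegree = ℓ := by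
    obtain ⟨p, hp⟩ := CharP.exists (U.Fd i)
    have hpp : p.Prime := CharP.char_is_prime (U.Fd i) p
    have := Fact.mk hpp
    have : NeZero ℓ := ⟨hℓ.ne_zero⟩
    let E := FiniteField.Extension (U.Fd i) p ℓ
    have hE : Module.finrank (U.Fd i) E = ℓ := FiniteField.finrank_extension (U.Fd i) p ℓ
    obtain ⟨γ, hγ⟩ := Field.exists_primitive_element (U.Fd i) E
    have h1 : (minpoly (U.Fd i) γ).natDegree = ℓ := by
      rw [← IntermediateField.adjoin.finrank (IsIntegral.of_finite _ γ), hγ,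
        IntermediateField.finrank_top', hE]
    let φ : E →ₐ[U.Fd i] Ω := IsAlgClosed.lift
    refine ⟨φ γ, ?_⟩
    rw [minpoly.algHom_eq φ φ.injective, h1]
  have hint : IsIntegral k β := Algebra.IsIntegral.isIntegral β
  obtain ⟨m, hm1, hm⟩ := U.exists_coeff β i
  have := U.finite m
  obtain ⟨hm3, hm4⟩ := natDegree_eq (U.Fd m) hint hm
  obtain ⟨n, hn⟩ := U.exists_mul hm1
  have hni : IsIntegral (U.Fd i) β := by
    by_contra h
    rw [minpoly.eq_zero h, natDegree_zero] at hβ
    exact hℓ.ne_zero hβ.symm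
  have hn0 : n ≠ 0 := by
    rintro rfl
    have := U.f_pos m
    omega
  have h1 : ¬ ℓ ∣ n := by
    intro h
    have h2 := hi m
    rw [hn, Nat.factorization_mul (U.f_pos i).ne' hn0, Finsupp.add_apply] at h2
    have h3 := hℓ.factorization_pos_of_dvd hn0 h
    omega
  have h2 : β ^ Nat.card (U.Fd m) ^ (minpoly k β).natDegree = β := by
    rw [pow_eq_iff hm3, hm4]
  rw [U.card, hn, pow_mul, ← U.card, ← pow_mul, pow_eq_iff hni, hβ] at h2
  have h3 : ℓ ∣ (minpoly k β).natDegree := (hℓ.dvd_mul.1 h2).resolve_left h1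
  have h4 : (minpoly k β).natDegree ≤ ℓ := by
    rw [← hβ, ← natDegree_map (algebraMap (U.Fd i) k) (p := minpoly (U.Fd i) β)]
    exact natDegree_le_of_dvd (minpoly.dvd_map_of_isScalarTower (U.Fd i) k β)
      ((minpoly.monic hni).map _).ne_zero
  have h5 : (minpoly k β).natDegree = ℓ :=
    le_antisymm h4 (Nat.le_of_dvd (minpoly.natDegree_pos hint) h3)
  refine ⟨IntermediateField.adjoin k {β}, inferInstance, inferInstance, ?_, ?_⟩
  · rw [IntermediateField.isSeparable_adjoin_simple_iff_isSeparable]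
    obtain ⟨p, hp⟩ := CharP.exists k
    have h6 : minpoly k β ∣ (X ^ Nat.card (U.Fd m) ^ (minpoly k β).natDegree - X : k[X]) := by
      apply minpoly.dvd
      have h7 : β ^ Nat.card (U.Fd m) ^ (minpoly k β).natDegree = β := by
        rw [pow_eq_iff hm3, hm4]
      simp [h7]
    refine Separable.of_dvd (galois_poly_separable p _ ?_) h6
    have h8 : (Nat.card (U.Fd m) : k) = 0 := by
      have h9 : (Nat.card (U.Fd m) : U.Fd m) = 0 := by
        have := Fintype.ofFinite (U.Fd m)
        rw [Nat.card_eq_fintype_card]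
        exact Nat.cast_card_eq_zero _
      have h10 := congrArg (algebraMap (U.Fd m) k) h9
      rwa [map_natCast, map_zero] at h10
    have h11 : p ∣ Nat.card (U.Fd m) := (CharP.cast_eq_zero_iff k p _).1 h8
    exact h11.trans (dvd_pow_self _ (minpoly.natDegree_pos hint).ne')
  · rw [IntermediateField.adjoin.finrank hint, h5]

end FinUnion

end Pool.Agent.R614.GE
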