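import Pool.Agent.R614.GE.Efg

/-!
# A non-tame valuation of a Galois extension of a number field yields infinitely many ones
-/

set_option autoImplicit false
set_option linter.unusedSectionVars false

namespace Pool.Agent.R614.GE

open NNReal NumberField IsDedekindDomain WithZero

section General

variable {κ : Type} [Field κ]

theorem incomp_aux {u w : Valuation κ ℝ≥0} (hu : ∃ a, 1 < u a) {x : κ} (h1 : u x ≤ 1)
    (h2 : 1 < w x) : ∃ z, u z < 1 ∧ 1 < w z := by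
  obtain ⟨a, ha⟩ := hu
  have ha0 : a ≠ 0 := by
    rintro rfl
    rw [map_zero] at ha
    exact absurd ha (not_lt.2 zero_le_one)
  have ha1 : u a⁻¹ < 1 := by
    rw [map_inv₀]
    exact inv_lt_one_of_one_lt₀ ha
  have hw0 : w a ≠ 0 := (Valuation.ne_zero_iff _).2 ha0
  obtain ⟨n, hn⟩ := pow_unbounded_of_one_lt (w a) h2
  refine ⟨x ^ n * a⁻¹, ?_, ?_⟩
  · rw [map_mul, map_pow]
    exact mul_lt_one_of_nonneg_of_lt_one_right (pow_le_one₀ zero_le h1) zero_le ha1
  · rw [map_mul, map_pow, map_inv₀, ← div_eq_mul_inv, one_lt_div (pos_iff_ne_zero.2 hw0)]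
    exact hn

theorem incomp_symm {u w : Valuation κ ℝ≥0} (h : ∃ z, u z < 1 ∧ 1 < w z) :
    ∃ z, w z < 1 ∧ 1 < u z := by
  obtain ⟨z, h1, h2⟩ := h
  have hz : z ≠ 0 := by
    rintro rfl
    rw [map_zero] at h2
    exact absurd h2 (not_lt.2 zero_le_one)
  refine ⟨z⁻¹, ?_, ?_⟩
  · rw [map_inv₀]
    exact inv_lt_one_of_one_lt₀ h2
  · rw [map_inv₀]
    exact (one_lt_inv₀ (pos_iff_ne_zero.2 ((Valuation.ne_zero_iff _).2 hz))).2 h1

theorem incomp {u w : Valuation κ ℝ≥0} (hu : ∃ a, 1 < u a) (hw : ∃ a, 1 < w a)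
    (h : u.valuationSubring ≠ w.valuationSubring) : ∃ z, u z < 1 ∧ 1 < w z := by
  by_cases h1 : ∃ x, u x ≤ 1 ∧ 1 < w x
  · obtain ⟨x, hx1, hx2⟩ := h1
    exact incomp_aux hu hx1 hx2
  · by_cases h2 : ∃ x, w x ≤ 1 ∧ 1 < u x
    · obtain ⟨x, hx1, hx2⟩ := h2
      exact incomp_symm (incomp_aux hw hx1 hx2)
    · exfalso
      apply h
      push Not at h1 h2
      ext x
      exact ⟨h1 x, h2 x⟩

/-- The residue field of `v` has a separable extension of degree `d`. -/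
def HasExt (v : Valuation κ ℝ≥0) (d : ℕ) : Prop :=
  ∃ (L : Type) (_ : Field L) (_ : Algebra (RF v) L),
    Algebra.IsSeparable (RF v) L ∧ Module.finrank (RF v) L = d

end General

variable {F κ : Type} [Field F] [NumberField F] [Field κ] [Algebra F κ] [IsGalois F κ]
  (v : Valuation κ ℝ≥0)

theorem center_conj (σ : κ ≃ₐ[F] κ) : center (conj v σ) F = center v F := by
  ext b
  rw [mem_center, mem_center, conj_apply]
  have h1 : σ (io F b) = io F b := σ.commutes (algebraMap (𝓞 F) F b)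
  rw [h1]

theorem fdeg_conj (σ : κ ≃ₐ[F] κ) (L : FiniteGaloisIntermediateField F κ) :
    fdeg (conj v σ) F L = fdeg v F L := by
  have h1 := Ideal.inertiaDegIn_eq_inertiaDeg (center v F) (center v L) (L ≃ₐ[F] L)
  have : (center (conj v σ) L).LiesOver (center v F) := by
    have := liesOver (conj v σ) F L
    rwa [center_conj] at this
  have h2 := Ideal.inertiaDegIn_eq_inertiaDeg (center v F) (center (conj v σ) L) (L ≃ₐ[F] L)
  exact h2.symm.trans h1

theorem conj_nontrivial (hv : ∃ a, 1 < v a) (σ : κ ≃ₐ[F] κ) : ∃ a, 1 < conj v σ a := by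
  obtain ⟨a, ha⟩ := hv
  exact ⟨σ.symm a, by rw [conj_apply, AlgEquiv.apply_symm_apply]; exact ha⟩

theorem conj_not_div {ℓ : ℕ} (h : ¬ Div v ℓ) (σ : κ ≃ₐ[F] κ) : ¬ Div (conj v σ) ℓ := by
  intro h1
  apply h
  intro a
  obtain ⟨c, hc⟩ := h1 (σ.symm a)
  rw [conj_apply, conj_apply, AlgEquiv.apply_symm_apply] at hc
  exact ⟨σ c, hc⟩

theorem conj_hasExt (hv : ∃ a, 1 < v a) {ℓ : ℕ} (hℓ : ℓ.Prime) (h : HasExt v ℓ)
    (σ : κ ≃ₐ[F] κ) : HasExt (conj v σ) ℓ := by
  obtain ⟨K, fK, aK, -, hK⟩ := h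
  obtain ⟨M, hM⟩ := bounded_of_ext (F := F) v hv hℓ K hK
  exact exists_ext_of_bounded (F := F) (conj v σ) (conj_nontrivial v hv σ) hℓ (M := M)
    fun L => by rw [fdeg_conj]; exact hM L

/-- a `p`-adic valuation of `κ` -/
theorem exists_padic (F : Type) {κ : Type} [Field F] [NumberField F] [Field κ] [Algebra F κ]
    [IsGalois F κ] (p : ℕ) (hp : p.Prime) : ∃ w : Valuation κ ℝ≥0,
    w (p : κ) < 1 ∧ ∀ q : ℕ, q.Prime → q ≠ p → w (q : κ) = 1 := by
  have : Fact p.Prime := ⟨hp⟩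
  have : CharZero κ := charZero_of_injective_algebraMap (algebraMap F κ).injective
  have : Algebra.IsAlgebraic ℚ κ := Algebra.IsAlgebraic.trans ℚ F κ
  let φ : κ →ₐ[ℚ] PadicAlgCl p := IsAlgClosed.lift
  refine ⟨(Valued.v : Valuation (PadicAlgCl p) ℝ≥0).comap (φ : κ →+* PadicAlgCl p), ?_, ?_⟩
  · rw [Valuation.comap_apply]
    have h1 : (φ : κ →+* PadicAlgCl p) (p : κ) = (p : PadicAlgCl p) := map_natCast _ _
    rw [h1, PadicAlgCl.valuation_p, one_div]
    exact inv_lt_one_of_one_lt₀ (by exact_mod_cast hp.one_lt)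
  · intro q hq hqp
    rw [Valuation.comap_apply]
    have h1 : (φ : κ →+* PadicAlgCl p) (q : κ) = algebraMap ℚ_[p] (PadicAlgCl p) (q : ℚ_[p]) := by
      rw [map_natCast, map_natCast]
    rw [h1]
    apply NNReal.coe_injective
    rw [PadicAlgCl.valuation_coe, PadicAlgCl.norm_extends, NNReal.coe_one]
    rw [Padic.norm_natCast_eq_one_iff]
    exact (Nat.coprime_primes hp hq).2 hqp.symm

variable (F) in
/-- If the `ℓ`-parts of the degrees are bounded, there are arbitrarily many pairwise incomparable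
bad valuations. -/
theorem many_of_bounded {ℓ : ℕ} (hℓ : ℓ.Prime) {M : ℕ}
    (hM : ∀ L : FiniteGaloisIntermediateField F κ, ¬ ℓ ^ M ∣ Module.finrank F L) (N : ℕ) :
    ∃ w : Fin N → Valuation κ ℝ≥0, (Pairwise fun i j => ∃ z, w i z < 1 ∧ 1 < w j z) ∧
      ∀ i, ¬ Div (w i) ℓ ∧ HasExt (w i) ℓ := by
  have hpr : ∀ n : ℕ, (Nat.nth Nat.Prime n).Prime := Nat.prime_nth_prime
  choose w hw1 hw2 using fun n : ℕ => exists_padic F (κ := κ) (Nat.nth Nat.Prime n) (hpr n)
  have hne : ∀ i j : ℕ, i ≠ j → Nat.nth Nat.Prime i ≠ Nat.nth Nat.Prime j := fun i j hij h =>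
    hij (Nat.nth_injective Nat.infinite_setOfPred_prime h)
  have hpos : ∀ i : ℕ, (w i) ((Nat.nth Nat.Prime i : ℕ) : κ) ≠ 0 := by
    intro i
    rw [Valuation.ne_zero_iff]
    have : CharZero κ := charZero_of_injective_algebraMap (algebraMap F κ).injective
    exact_mod_cast (hpr i).ne_zero
  have hnt : ∀ i : ℕ, ∃ a, 1 < w i a := by
    intro i
    refine ⟨((Nat.nth Nat.Prime i : ℕ) : κ)⁻¹, ?_⟩
    rw [map_inv₀]
    exact (one_lt_inv₀ (pos_iff_ne_zero.2 (hpos i))).2 (hw1 i)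
  refine ⟨fun i => w i, fun i j hij => ?_, fun i => ?_⟩
  · have hij' : (i : ℕ) ≠ j := fun h => hij (Fin.ext h)
    refine ⟨((Nat.nth Nat.Prime i : ℕ) : κ) * ((Nat.nth Nat.Prime j : ℕ) : κ)⁻¹, ?_, ?_⟩
    · show w i _ < 1
      rw [map_mul, map_inv₀, hw2 i _ (hpr j) (hne j i hij'.symm), inv_one, mul_one]
      exact hw1 i
    · show 1 < w j _
      rw [map_mul, map_inv₀, hw2 j _ (hpr i) (hne i j hij'), one_mul]
      exact (one_lt_inv₀ (pos_iff_ne_zero.2 (hpos j))).2 (hw1 j)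
  · exact not_tame_of_bounded (F := F) (w i) (hnt i) hℓ hM

/-- A bad valuation yields arbitrarily many ones. -/
theorem many (F : Type) {κ : Type} [Field F] [NumberField F] [Field κ] [Algebra F κ]
    [IsGalois F κ] {v : Valuation κ ℝ≥0} (hv : ∃ a, 1 < v a) {ℓ : ℕ} (hℓ : ℓ.Prime) (hdiv : ¬ Div v ℓ)
    (hext : HasExt v ℓ) (N : ℕ) :
    ∃ w : Fin N → Valuation κ ℝ≥0, (Pairwise fun i j => ∃ z, w i z < 1 ∧ 1 < w j z) ∧
      ∀ i, ¬ Div (w i) ℓ ∧ HasExt (w i) ℓ := by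
  by_cases hfin : (Set.range fun σ : κ ≃ₐ[F] κ => (conj v σ).valuationSubring).Finite
  · obtain ⟨K, fK, aK, -, hK⟩ := hext
    obtain ⟨M, hM⟩ := bounded_finrank v hv hℓ hdiv K hK hfin
    exact many_of_bounded F hℓ hM N
  · have hinf : (Set.range fun σ : κ ≃ₐ[F] κ => (conj v σ).valuationSubring).Infinite := hfin
    let e := hinf.natEmbedding
    choose σ hσ using fun n => (e n).2
    refine ⟨fun i => conj v (σ i), fun i j hij => ?_, fun i =>
      ⟨conj_not_div v hdiv _, conj_hasExt v hv hℓ hext _⟩⟩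
    refine incomp (conj_nontrivial v hv _) (conj_nontrivial v hv _) fun h => ?_
    have h1 := hσ i
    have h2 := hσ j
    have h3 : (e i).1 = (e j).1 := h1.symm.trans (h.trans h2)
    exact hij (Fin.ext (e.injective (Subtype.ext h3)))

end Pool.Agent.R614.GE
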