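import Pool.Agent.R614.GE.Val
import Pool.Agent.R614.GE.Fin

/-!
# The residue field of a valuation of a Galois extension of a number field
-/

set_option autoImplicit false
set_option linter.unusedSectionVars false

namespace Pool.Agent.R614.GE

open NNReal NumberField IsDedekindDomain WithZero

section General

variable {κ : Type} [Field κ] (v : Valuation κ ℝ≥0) (M : Type) [Field M] [NumberField M]
  [Algebra M κ]

/-- the residue field of `v` -/
abbrev RF : Type := IsLocalRing.ResidueField v.valuationSubring

/-- reduction of the integers of `M` -/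
noncomputable def red : 𝓞 M →+* RF v :=
  (IsLocalRing.residue v.valuationSubring).comp
    ((io M).codRestrict v.valuationSubring.toSubring (fun b => le_one_int v M b))

theorem red_eq {b : 𝓞 M} (h : io M b ∈ v.valuationSubring) :
    red v M b = IsLocalRing.residue v.valuationSubring ⟨io M b, h⟩ := rfl

theorem red_eq_zero {b : 𝓞 M} : red v M b = 0 ↔ b ∈ center v M := by
  rw [red_eq v M (le_one_int v M b), IsLocalRing.residue_eq_zero_iff, mem_center,
    Valuation.mem_maximalIdeal_iff]

variable [Algebra.IsAlgebraic M κ] (hv : ∃ a, 1 < v a)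

include hv in
theorem center_isMaximal : (center v M).IsMaximal :=
  (center_isPrime v M).isMaximal (center_ne_bot v M hv)

/-- the finite residue field of `M` -/
noncomputable def quo : (𝓞 M ⧸ center v M) →+* RF v :=
  Ideal.Quotient.lift _ (red v M) fun _ hb => (red_eq_zero v M).2 hb

theorem quo_injective : Function.Injective (quo v M) := by
  rw [injective_iff_map_eq_zero]
  intro a ha
  obtain ⟨b, rfl⟩ := Ideal.Quotient.mk_surjective a
  rw [quo, Ideal.Quotient.lift_mk, red_eq_zero] at ha
  exact Ideal.Quotient.eq_zero_iff_mem.2 ha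

/-- the finite residue field of `M`, in the residue field of `v` -/
noncomputable def resField (hv : ∃ a, 1 < v a) : Subfield (RF v) where
  toSubring := (red v M).range
  inv_mem' := by
    rintro _ ⟨b, rfl⟩
    by_cases hb : b ∈ center v M
    · show (red v M b)⁻¹ ∈ (red v M).range
      rw [(red_eq_zero v M).2 hb, inv_zero]
      exact (red v M).range.zero_mem
    · have := center_isMaximal v M hv
      obtain ⟨c, hc⟩ : ∃ c : 𝓞 M, b * c - 1 ∈ center v M := by
        obtain ⟨y, i, hi, h⟩ := (Ideal.IsMaximal.exists_inv this hb)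
        exact ⟨y, by
          have : b * y - 1 = -i := by rw [← h]; ring
          rw [this]
          exact neg_mem hi⟩
      refine ⟨c, ?_⟩
      have h1 := (red_eq_zero v M).2 hc
      rw [map_sub, map_mul, map_one, sub_eq_zero] at h1
      exact (eq_inv_of_mul_eq_one_right h1)

theorem mem_resField {x : RF v} : x ∈ resField v M hv ↔ ∃ b, red v M b = x := Iff.rfl

theorem card_resField : Nat.card (resField v M hv) = (center v M).cardQuot := by
  symm
  apply Nat.card_congr
  refine Equiv.ofBijective (fun a => ⟨quo v M a, ?_⟩) ⟨fun a b hab => ?_, ?_⟩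
  · obtain ⟨b, rfl⟩ := Ideal.Quotient.mk_surjective a
    exact ⟨b, rfl⟩
  · exact quo_injective v M (congrArg Subtype.val hab)
  · rintro ⟨_, b, rfl⟩
    exact ⟨Ideal.Quotient.mk _ b, rfl⟩

/-- every residue class of an element of `M` comes from the integers -/
theorem residue_mem (x : M) (hx : algebraMap M κ x ∈ v.valuationSubring) :
    IsLocalRing.residue v.valuationSubring ⟨_, hx⟩ ∈ resField v M hv := by
  have h1 : (spec v M hv).valuation M x ≤ 1 := (val_le_one_iff v M hv x).2 hx
  obtain ⟨n, d, h⟩ := (spec v M hv).exists_primeCompl_mul_eq_of_integer x h1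
  have hd : red v M d ≠ 0 := fun h0 => d.2 ((red_eq_zero v M).1 h0)
  have h2 : IsLocalRing.residue v.valuationSubring ⟨_, hx⟩ * red v M d = red v M n := by
    rw [red_eq v M (le_one_int v M d), red_eq v M (le_one_int v M n), ← map_mul]
    congr 1
    apply Subtype.ext
    show algebraMap M κ x * algebraMap M κ (algebraMap (𝓞 M) M d) =
      algebraMap M κ (algebraMap (𝓞 M) M n)
    rw [← map_mul, h]
  rw [eq_div_of_mul_eq hd h2]
  exact div_mem ⟨n, rfl⟩ ⟨d, rfl⟩

end General

section Tower

variable {κ : Type} [Field κ] (v : Valuation κ ℝ≥0) (M N : Type) [Field M] [NumberField M]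
  [Field N] [NumberField N] [Algebra M κ] [Algebra N κ] [Algebra M N] [IsScalarTower M N κ]

theorem io_algebraMap (b : 𝓞 M) : io (κ := κ) N (algebraMap (𝓞 M) (𝓞 N) b) = io M b := by
  show algebraMap N κ (algebraMap (𝓞 N) N (algebraMap (𝓞 M) (𝓞 N) b)) =
    algebraMap M κ (algebraMap (𝓞 M) M b)
  rw [← IsScalarTower.algebraMap_apply (𝓞 M) (𝓞 N) N, IsScalarTower.algebraMap_apply (𝓞 M) M N,
    ← IsScalarTower.algebraMap_apply M N κ]

instance liesOver : (center v N).LiesOver (center v M) := by
  constructor
  ext b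
  rw [Ideal.mem_comap, mem_center, mem_center, io_algebraMap]

theorem resField_le [Algebra.IsAlgebraic M κ] [Algebra.IsAlgebraic N κ] (hv : ∃ a, 1 < v a) :
    resField v M hv ≤ resField v N hv := by
  rintro _ ⟨b, rfl⟩
  refine ⟨algebraMap (𝓞 M) (𝓞 N) b, ?_⟩
  rw [red_eq v N (le_one_int v N _), red_eq v M (le_one_int v M _)]
  congr 1
  apply Subtype.ext
  exact io_algebraMap M N b

/-- the inertia degree -/
noncomputable def fdeg : ℕ := (center v N).inertiaDeg (𝓞 M)

/-- the ramification index -/
noncomputable def edeg : ℕ := (center v N).ramificationIdx (𝓞 M)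

theorem fdeg_pos : 0 < fdeg v M N := Ideal.inertiaDeg_pos _ _

theorem edeg_pos : 0 < edeg v M N := Ideal.ramificationIdx_pos _ _

theorem card_pow [Algebra.IsAlgebraic M κ] [Algebra.IsAlgebraic N κ] (hv : ∃ a, 1 < v a) :
    (center v N).cardQuot = (center v M).cardQuot ^ fdeg v M N := by
  have := center_isMaximal v M hv
  have := center_isMaximal v N hv
  exact (Ideal.cardQuot_pow_inertiaDeg _ _).symm

/-- the ramification index in terms of uniformizers -/
theorem val_unif [Algebra.IsAlgebraic M κ] [Algebra.IsAlgebraic N κ] (hv : ∃ a, 1 < v a)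
    {a : M} (ha : (spec v M hv).valuation M a = exp (-1 : ℤ)) {b : N}
    (hb : ∀ x : N, x ≠ 0 → ∃ n : ℤ, (spec v N hv).valuation N x = exp (-n : ℤ) ∧
      v (algebraMap N κ x) = v (algebraMap N κ b) ^ n) :
    v (algebraMap M κ a) = v (algebraMap N κ b) ^ (edeg v M N : ℤ) := by
  have ha0 : a ≠ 0 := by
    rintro rfl
    rw [map_zero] at ha
    exact exp_ne_zero ha.symm
  obtain ⟨n, hn1, hn2⟩ := hb (algebraMap M N a) ((map_ne_zero _).2 ha0)
  have : (spec v N hv).asIdeal.LiesOver (spec v M hv).asIdeal := liesOver v M N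
  have h1 := (spec v M hv).valuation_liesOver N (spec v N hv) a
  rw [ha, hn1, ← exp_nsmul, exp_inj, Ideal.ramificationIdx'_eq_ramificationIdx
    (spec v M hv).asIdeal (spec v N hv).asIdeal (center_ne_bot v M hv)] at h1
  rw [← IsScalarTower.algebraMap_apply] at hn2
  rw [hn2]
  congr 1
  have h2 : edeg v M N = (spec v N hv).asIdeal.ramificationIdx (𝓞 M) := rfl
  rw [h2]
  simp only [nsmul_eq_mul, mul_neg, mul_one] at h1
  omega

end Tower

end Pool.Agent.R614.GE
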