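import Pool.Agent.R614.GE.Res

/-!
# Tame valuations of Galois extensions of number fields
-/

set_option autoImplicit false
set_option linter.unusedSectionVars false

namespace Pool.Agent.R614.GE

open NNReal NumberField IsDedekindDomain WithZero

variable (F : Type) {κ : Type} [Field F] [NumberField F] [Field κ] [Algebra F κ] [IsGalois F κ]

instance numberField (L : FiniteGaloisIntermediateField F κ) : NumberField L :=
  NumberField.of_module_finite F L

instance isAlgebraic (L : FiniteGaloisIntermediateField F κ) : Algebra.IsAlgebraic L κ :=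
  Algebra.IsAlgebraic.tower_top (K := F) L

variable (v : Valuation κ ℝ≥0) (hv : ∃ a, 1 < v a)

include hv in
theorem one_lt_cardQuot : 1 < (center v F).cardQuot := by
  have h1 := center_isMaximal v F hv
  have : Nontrivial (𝓞 F ⧸ center v F) := Ideal.Quotient.nontrivial_iff.2 h1.ne_top
  have : Finite (𝓞 F ⧸ center v F) :=
    Ideal.finiteQuotientOfFreeOfNeBot (center v F) (center_ne_bot v F hv)
  show 1 < Nat.card (𝓞 F ⧸ center v F)
  exact Finite.one_lt_card

/-- the residue field of `v` as a union of finite fields -/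
noncomputable def finUnion : FinUnion (RF v) where
  ι := FiniteGaloisIntermediateField F κ
  nonempty := ⟨⊥⟩
  Fd L := resField v L hv
  q := (center v F).cardQuot
  one_lt := one_lt_cardQuot F v hv
  f L := fdeg v F L
  f_pos L := fdeg_pos v F L
  card L := by rw [card_resField, card_pow v F L hv]
  dir L₁ L₂ := by
    have key : ∀ L L' : FiniteGaloisIntermediateField F κ, L ≤ L' →
        resField v L hv ≤ resField v L' hv := by
      intro L L' h
      let a : Algebra L L' := (IntermediateField.inclusion h).toAlgebra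
      have : IsScalarTower L L' κ := IsScalarTower.of_algebraMap_eq (fun x => rfl)
      exact resField_le v L L' hv
    exact ⟨L₁ ⊔ L₂, key _ _ le_sup_left, key _ _ le_sup_right⟩
  cover x := by
    obtain ⟨⟨a, ha⟩, rfl⟩ := IsLocalRing.residue_surjective x
    let L := FiniteGaloisIntermediateField.adjoin F {a}
    have h1 : a ∈ L.toIntermediateField := FiniteGaloisIntermediateField.subset_adjoin F {a} rfl
    exact ⟨L, residue_mem v L hv ⟨a, h1⟩ ha⟩

variable {F}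

include hv in
theorem bounded_of_ext {ℓ : ℕ} (hℓ : ℓ.Prime) (K : Type) [Field K] [Algebra (RF v) K]
    (hK : Module.finrank (RF v) K = ℓ) :
    ∃ M, ∀ L : FiniteGaloisIntermediateField F κ, ¬ ℓ ^ M ∣ fdeg v F L := by
  by_contra hcon
  push Not at hcon
  exact (finUnion F v hv).no_ext hℓ hcon K hK

include hv in
theorem exists_ext_of_bounded {ℓ : ℕ} (hℓ : ℓ.Prime) {M : ℕ}
    (hM : ∀ L : FiniteGaloisIntermediateField F κ, ¬ ℓ ^ M ∣ fdeg v F L) :
    ∃ (K : Type) (_ : Field K) (_ : Algebra (RF v) K), Algebra.IsSeparable (RF v) K ∧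
      Module.finrank (RF v) K = ℓ :=
  (finUnion F v hv).exists_ext hℓ hM

theorem arith {e₀ e ℓ : ℕ} (hℓ : ℓ.Prime) (he₀ : 0 < e₀) (he : 0 < e)
    (h : ℓ ^ (e₀.factorization ℓ + 1) ∣ e) {A B : ℝ≥0} (hB : B ≠ 0)
    (hAB : A ^ e₀ = B ^ e) : ∃ x y : ℤ, (B ^ x * A ^ y) ^ ℓ = A := by
  obtain ⟨e', rfl⟩ : ℓ ∣ e := (Dvd.intro _ (pow_succ' ℓ (e₀.factorization ℓ)).symm).trans h
  have he' : e' ≠ 0 := by
    rintro rfl
    simp at he
  have h1 : e₀.gcd (ℓ * e') ∣ e' := by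
    rw [← Nat.factorization_prime_le_iff_dvd (Nat.gcd_pos_of_pos_left _ he₀).ne' he']
    intro p hp
    have hg1 : (e₀.gcd (ℓ * e')).factorization p ≤ e₀.factorization p :=
      (Nat.factorization_prime_le_iff_dvd (Nat.gcd_pos_of_pos_left _ he₀).ne' he₀.ne').2
        (Nat.gcd_dvd_left _ _) p hp
    have hg2 : (e₀.gcd (ℓ * e')).factorization p ≤ (ℓ * e').factorization p :=
      (Nat.factorization_prime_le_iff_dvd (Nat.gcd_pos_of_pos_left _ he₀).ne' he.ne').2
        (Nat.gcd_dvd_right _ _) p hp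
    have hm : (ℓ * e').factorization p = ℓ.factorization p + e'.factorization p := by
      rw [Nat.factorization_mul hℓ.ne_zero he', Finsupp.add_apply]
    by_cases hpl : p = ℓ
    · subst hpl
      have h2 := (hp.pow_dvd_iff_le_factorization he.ne').1 h
      rw [hm, hp.factorization_self] at h2
      omega
    · have h3 : ℓ.factorization p = 0 := by
        rw [hℓ.factorization, Finsupp.single_apply, if_neg (Ne.symm hpl)]
      omega
  have h2 : ((e₀.gcd (ℓ * e') : ℕ) : ℤ) ∣ (e' : ℤ) := by exact_mod_cast h1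
  obtain ⟨t, ht⟩ := h2
  have h3 := Nat.gcd_eq_gcd_ab e₀ (ℓ * e')
  refine ⟨Nat.gcdA e₀ (ℓ * e') * t, Nat.gcdB e₀ (ℓ * e') * t, ?_⟩
  set x := Nat.gcdA e₀ (ℓ * e') * t with hx
  set y := Nat.gcdB e₀ (ℓ * e') * t with hy
  have h4 : (e₀ : ℤ) * x + ((ℓ * e' : ℕ) : ℤ) * y = e' := by
    rw [ht, h3]
    ring
  have h5 : (B ^ x * A ^ y) ^ e₀ = B ^ (e' : ℤ) := by
    rw [← zpow_natCast, mul_zpow, ← zpow_mul, ← zpow_mul, mul_comm y, zpow_mul A, zpow_natCast A,
      hAB, ← zpow_natCast B, ← zpow_mul, ← zpow_add₀ hB, ← h4]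
    congr 1
    ring
  have h6 : ((B ^ x * A ^ y) ^ ℓ) ^ e₀ = A ^ e₀ := by
    rw [← pow_mul, mul_comm ℓ, pow_mul, h5, zpow_natCast, ← pow_mul, mul_comm e', ← hAB]
  exact (pow_left_inj₀ zero_le zero_le he₀.ne').1 h6

theorem ne_zero_of_ne {x : κ} (hx : x ≠ 0) : v x ≠ 0 := (Valuation.ne_zero_iff _).2 hx

/-- the value group is `d`-divisible -/
def Div (d : ℕ) : Prop := ∀ a : κ, ∃ c : κ, v a = v c ^ d

include hv in
theorem bounded_of_not_div {ℓ : ℕ} (hℓ : ℓ.Prime) (h : ¬ Div v ℓ) :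
    ∃ M, ∀ L : FiniteGaloisIntermediateField F κ, ¬ ℓ ^ M ∣ edeg v F L := by
  by_contra hcon
  push Not at hcon
  apply h
  intro a
  by_cases ha : a = 0
  · exact ⟨0, by rw [ha, map_zero, zero_pow hℓ.ne_zero]⟩
  obtain ⟨π, hπ0, hπ, -, -⟩ := exists_unif v F hv
  let L₀ := FiniteGaloisIntermediateField.adjoin F {a}
  have h1 : a ∈ L₀.toIntermediateField := FiniteGaloisIntermediateField.subset_adjoin F {a} rfl
  obtain ⟨u₀, hu0, -, -, hu⟩ := exists_unif v L₀ hv
  obtain ⟨L, hL⟩ := hcon ((edeg v F L₀).factorization ℓ + 1)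
  obtain ⟨u₁, hu1, -, -, hu'⟩ := exists_unif v L hv
  have h2 := val_unif v F L₀ hv hπ hu
  have h3 := val_unif v F L hv hπ hu'
  rw [zpow_natCast] at h2 h3
  have hA : v (algebraMap L₀ κ u₀) ≠ 0 := ne_zero_of_ne v ((map_ne_zero _).2 hu0)
  have hB : v (algebraMap L κ u₁) ≠ 0 := ne_zero_of_ne v ((map_ne_zero _).2 hu1)
  obtain ⟨x, y, hxy⟩ := arith hℓ (edeg_pos v F L₀) (edeg_pos v F L) hL hB (h2.symm.trans h3)
  obtain ⟨n, -, hn⟩ := hu ⟨a, h1⟩ (fun h0 => ha (congrArg Subtype.val h0))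
  refine ⟨(algebraMap L κ u₁ ^ x * algebraMap L₀ κ u₀ ^ y) ^ n, ?_⟩
  have hn' : v a = v (algebraMap L₀ κ u₀) ^ n := hn
  rw [hn', map_zpow₀, map_mul, map_zpow₀, map_zpow₀]
  set A := v (algebraMap L₀ κ u₀)
  set B := v (algebraMap L κ u₁)
  calc A ^ n = ((B ^ x * A ^ y) ^ ℓ) ^ n := by rw [hxy]
    _ = ((B ^ x * A ^ y) ^ n) ^ ℓ := by
      generalize B ^ x * A ^ y = C
      rw [← zpow_natCast C ℓ, ← zpow_natCast (C ^ n) ℓ, ← zpow_mul, ← zpow_mul,
        mul_comm (ℓ : ℤ) n]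

include hv in
theorem not_div_of_bounded {ℓ : ℕ} (hℓ : ℓ.Prime) {M : ℕ}
    (hM : ∀ L : FiniteGaloisIntermediateField F κ, ¬ ℓ ^ M ∣ edeg v F L) : ¬ Div v ℓ := by
  intro h
  obtain ⟨π, hπ0, hπ, -, -⟩ := exists_unif v F hv
  have h1 : ∀ m : ℕ, ∃ c : κ, v (algebraMap F κ π) = v c ^ ℓ ^ m := by
    intro m
    induction m with
    | zero => exact ⟨algebraMap F κ π, by simp⟩
    | succ m ih =>
      obtain ⟨c, hc⟩ := ih
      obtain ⟨d, hd⟩ := h c
      exact ⟨d, by rw [hc, hd, ← pow_mul, pow_succ, mul_comm]⟩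
  obtain ⟨c, hc⟩ := h1 M
  have hp0 : v (algebraMap F κ π) ≠ 0 := ne_zero_of_ne v ((map_ne_zero _).2 hπ0)
  have hc0 : c ≠ 0 := by
    rintro rfl
    rw [map_zero, zero_pow (pow_ne_zero _ hℓ.ne_zero)] at hc
    exact hp0 hc
  let L := FiniteGaloisIntermediateField.adjoin F {c}
  have h2 : c ∈ L.toIntermediateField := FiniteGaloisIntermediateField.subset_adjoin F {c} rfl
  obtain ⟨u, hu0, -, hu1, hu⟩ := exists_unif v L hv
  have hA : v (algebraMap L κ u) ≠ 0 := ne_zero_of_ne v ((map_ne_zero _).2 hu0)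
  obtain ⟨n, -, hn⟩ := hu ⟨c, h2⟩ (fun h0 => hc0 (congrArg Subtype.val h0))
  have hn' : v c = v (algebraMap L κ u) ^ n := hn
  have h3 := val_unif v F L hv hπ hu
  rw [hc, hn', ← zpow_natCast, ← zpow_mul] at h3
  have h4 := zpow_right_injective₀ (pos_iff_ne_zero.2 hA) hu1.ne h3
  apply hM L
  have h5 : ((ℓ ^ M : ℕ) : ℤ) ∣ (edeg v F L : ℤ) := ⟨n, by rw [← h4, mul_comm]⟩
  exact_mod_cast h5

end Pool.Agent.R614.GE
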