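import Mathlib

/-!
# Real valuations of algebraic extensions of number fields and prime ideals

`v` is a valuation of a field `κ` with real values, `M` a number field with an embedding in `κ`.
The restriction of `v` to `M` is the valuation of the prime ideal `center v M` of `𝓞 M`, up to a
power.
-/

set_option autoImplicit false
set_option linter.unusedSectionVars false

namespace Pool.Agent.R614.GE

open NNReal NumberField IsDedekindDomain WithZero

variable {κ : Type} [Field κ] (v : Valuation κ ℝ≥0)

section Center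

variable (M : Type) [Field M] [NumberField M] [Algebra M κ]

theorem le_one_of_isIntegral {x : κ} (hx : IsIntegral ℤ x) : v x ≤ 1 := by
  have h1 : IsIntegral v.integer x := hx.tower_top
  exact (Valuation.integer.integers v).mem_of_integral h1

/-- the embedding of the integers of `M` -/
def io : 𝓞 M →+* κ := (algebraMap M κ).comp (algebraMap (𝓞 M) M)

theorem le_one_int (b : 𝓞 M) : v (io M b) ≤ 1 :=
  le_one_of_isIntegral v (map_isIntegral_int (algebraMap M κ) (RingOfIntegers.isIntegral_coe b))

/-- the prime ideal of the integers of `M` of value less than one -/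
def center : Ideal (𝓞 M) where
  carrier := {b | v (io M b) < 1}
  add_mem' {a b} ha hb := by
    show v (io M (a + b)) < 1
    rw [map_add]
    exact (v.map_add _ _).trans_lt (max_lt ha hb)
  zero_mem' := by
    show v (io M 0) < 1
    rw [map_zero, map_zero]
    exact zero_lt_one
  smul_mem' c b hb := by
    show v (io M (c * b)) < 1
    rw [map_mul, map_mul]
    exact mul_lt_one_of_nonneg_of_lt_one_right (le_one_int v M c) zero_le hb

theorem mem_center {b : 𝓞 M} : b ∈ center v M ↔ v (io M b) < 1 := Iff.rfl

theorem eq_one_of_notMem {b : 𝓞 M} (h : b ∉ center v M) : v (io M b) = 1 :=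
  le_antisymm (le_one_int v M b) (not_lt.1 h)

instance center_isPrime : (center v M).IsPrime where
  ne_top' h := by
    have h1 : (1 : 𝓞 M) ∈ center v M := by rw [h]; trivial
    rw [mem_center, map_one, map_one] at h1
    exact lt_irrefl _ h1
  mem_or_mem' {a b} hab := by
    by_contra hcon
    push Not at hcon
    have h1 := eq_one_of_notMem v M hcon.1
    have h2 := eq_one_of_notMem v M hcon.2
    rw [mem_center, map_mul, map_mul, h1, h2, mul_one] at hab
    exact lt_irrefl _ hab

theorem center_ne_bot [Algebra.IsAlgebraic M κ] (hv : ∃ a, 1 < v a) : center v M ≠ ⊥ := by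
  intro h
  obtain ⟨a, ha⟩ := hv
  have h1 : ∀ b : 𝓞 M, b ≠ 0 → v (io M b) = 1 := by
    intro b hb
    apply eq_one_of_notMem
    rw [h]
    exact hb
  have h2 : ∀ x : M, v (algebraMap M κ x) ≤ 1 := by
    intro x
    obtain ⟨n, d, hd, rfl⟩ := IsFractionRing.div_surjective (A := 𝓞 M) x
    have hd0 : d ≠ 0 := nonZeroDivisors.ne_zero hd
    rw [map_div₀, map_div₀]
    show v (io M n) / v (io M d) ≤ 1
    rw [h1 d hd0, div_one]
    exact le_one_int v M n
  have h5 : IsIntegral M a := Algebra.IsIntegral.isIntegral a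
  let f : M →+* v.integer := (algebraMap M κ).codRestrict v.integer.toSubsemiring (fun x => h2 x)
  letI : Algebra M v.integer := f.toAlgebra
  haveI : IsScalarTower M v.integer κ := IsScalarTower.of_algebraMap_eq (fun x => rfl)
  have h6 : IsIntegral v.integer a := h5.tower_top
  have h7 := (Valuation.integer.integers v).mem_of_integral h6
  exact absurd ha (not_lt.2 h7)

end Center

section Spectrum

variable (M : Type) [Field M] [NumberField M] [Algebra M κ] [Algebra.IsAlgebraic M κ]
  (hv : ∃ a, 1 < v a)

/-- the prime ideal as a place -/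
def spec : HeightOneSpectrum (𝓞 M) := ⟨center v M, inferInstance, center_ne_bot v M hv⟩

theorem val_le_one_iff (x : M) :
    (spec v M hv).valuation M x ≤ 1 ↔ v (algebraMap M κ x) ≤ 1 := by
  have key : ∀ y : M, (spec v M hv).valuation M y ≤ 1 →
      ∃ (n d : 𝓞 M), d ∉ center v M ∧ v (algebraMap M κ y) * v (io M d) = v (io M n) ∧
        y * algebraMap (𝓞 M) M d = algebraMap (𝓞 M) M n := by
    intro y hy
    obtain ⟨n, d, h⟩ := (spec v M hv).exists_primeCompl_mul_eq_of_integer y hy
    refine ⟨n, d, d.2, ?_, h⟩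
    rw [← map_mul]
    show v (algebraMap M κ y * algebraMap M κ (algebraMap (𝓞 M) M d)) =
      v (algebraMap M κ (algebraMap (𝓞 M) M n))
    rw [← map_mul, h]
  constructor
  · intro h
    obtain ⟨n, d, hd, h2, -⟩ := key x h
    rw [eq_one_of_notMem v M hd, mul_one] at h2
    rw [h2]
    exact le_one_int v M n
  · intro h
    by_contra hcon
    rw [not_le] at hcon
    have hx : x ≠ 0 := by
      rintro rfl
      rw [map_zero] at hcon
      exact absurd hcon (not_lt.2 zero_le_one)
    have h1 : (spec v M hv).valuation M x⁻¹ < 1 := by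
      rw [map_inv₀]
      exact inv_lt_one_of_one_lt₀ hcon
    obtain ⟨n, d, hd, h7, h2⟩ := key x⁻¹ h1.le
    have h3 : n ∈ center v M := by
      have h4 : (spec v M hv).valuation M (algebraMap (𝓞 M) M n) < 1 := by
        rw [← h2, map_mul]
        have h6 : (spec v M hv).valuation M (algebraMap (𝓞 M) M d) ≤ 1 :=
          (spec v M hv).valuation_le_one d
        exact mul_lt_one_of_lt_of_le h1 h6
      rw [(spec v M hv).valuation_lt_one_iff_mem] at h4
      exact h4
    rw [eq_one_of_notMem v M hd, mul_one, map_inv₀, map_inv₀] at h7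
    rw [mem_center, ← h7] at h3
    have h8 : v (algebraMap M κ x) ≠ 0 := by
      rw [Valuation.ne_zero_iff]
      exact (map_ne_zero _).2 hx
    rw [inv_lt_one₀ (pos_iff_ne_zero.2 h8)] at h3
    exact absurd h3 (not_lt.2 h)

theorem val_eq_one (x : M) (hx : (spec v M hv).valuation M x = 1) : v (algebraMap M κ x) = 1 := by
  have hx0 : x ≠ 0 := by
    rintro rfl
    rw [map_zero] at hx
    exact zero_ne_one hx
  have h0 : v (algebraMap M κ x) ≠ 0 := by
    rw [Valuation.ne_zero_iff]
    exact (map_ne_zero _).2 hx0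
  apply le_antisymm
  · rw [← val_le_one_iff v M hv, hx]
  · have h1 := (val_le_one_iff v M hv x⁻¹).1 (by rw [map_inv₀, hx, inv_one])
    rw [map_inv₀, map_inv₀, inv_le_one₀ (pos_iff_ne_zero.2 h0)] at h1
    exact h1

/-- There is an element `Π` of `M` whose powers have all the values of elements of `M`. -/
theorem exists_unif : ∃ u : M, u ≠ 0 ∧ (spec v M hv).valuation M u = exp (-1 : ℤ) ∧
    v (algebraMap M κ u) < 1 ∧
    ∀ x : M, x ≠ 0 → ∃ n : ℤ, (spec v M hv).valuation M x = exp (-n : ℤ) ∧
      v (algebraMap M κ x) = v (algebraMap M κ u) ^ n := by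
  obtain ⟨u, hu⟩ := (spec v M hv).valuation_exists_uniformizer M
  have hu0 : u ≠ 0 := by
    rintro rfl
    rw [map_zero] at hu
    exact exp_ne_zero hu.symm
  refine ⟨u, hu0, hu, ?_, ?_⟩
  · by_contra hcon
    rw [not_lt] at hcon
    have h0 : v (algebraMap M κ u) ≠ 0 := by
      rw [Valuation.ne_zero_iff]
      exact (map_ne_zero _).2 hu0
    have h1 : v (algebraMap M κ u⁻¹) ≤ 1 := by
      rw [map_inv₀, map_inv₀]
      exact inv_le_one_of_one_le₀ hcon
    rw [← val_le_one_iff v M hv, map_inv₀, hu, ← exp_neg] at h1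
    rw [← exp_zero, exp_le_exp] at h1
    omega
  · intro x hx
    have hx0 : (spec v M hv).valuation M x ≠ 0 := (Valuation.ne_zero_iff _).2 hx
    obtain ⟨n, hn⟩ : ∃ n : ℤ, (spec v M hv).valuation M x = exp (-n : ℤ) :=
      ⟨-(log ((spec v M hv).valuation M x)), by rw [neg_neg, exp_log hx0]⟩
    refine ⟨n, hn, ?_⟩
    have h2 : (spec v M hv).valuation M (x * u ^ (-n)) = 1 := by
      rw [map_mul, map_zpow₀, hn, hu, ← exp_zsmul, ← exp_add, ← exp_zero]
      congr 1
      simp
    have h3 := val_eq_one v M hv _ h2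
    rw [map_mul, map_mul, map_zpow₀, map_zpow₀] at h3
    have h0 : v (algebraMap M κ u) ≠ 0 := by
      rw [Valuation.ne_zero_iff]
      exact (map_ne_zero _).2 hu0
    rw [zpow_neg, mul_inv_eq_one₀ (zpow_ne_zero _ h0)] at h3
    exact h3

end Spectrum

end Pool.Agent.R614.GE
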